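import Pool.Agent.V1164.MM.Vec

/-!
# A Markov-modulated Poisson process for which the time-stationary first event time does not
dominate the event-stationary one
-/

set_option autoImplicit false

namespace Pool.Agent.Results.MP_af8c33_pr.NotStochasticallyOrdered

open Matrix Pool.Agent.V1164.MM

/-- the generator of the cyclic chain on 16 states with rate 4 -/
def Q : Matrix (Fin 16) (Fin 16) ℝ :=
  Matrix.of fun i j => if j = i + 1 then 4 else if j = i then -4 else 0

/-- the event rates -/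
def lam : Fin 16 → ℝ := fun i => if i.val < 8 then 1 else 0

/-- the uniform distribution -/
noncomputable def pi' : Fin 16 → ℝ := fun _ => 1 / 16

/-- the nonnegative matrix `N = C + 5` -/
def N : Matrix (Fin 16) (Fin 16) ℝ :=
  Matrix.of fun i j => if j = i + 1 then 4 else if j = i then (if i.val < 8 then 0 else 1) else 0

lemma succ_ne (i : Fin 16) : i + 1 ≠ i := by
  revert i; decide

lemma eq_sub_iff (i j : Fin 16) : i = j - 1 ↔ j = i + 1 := by
  revert i j; decide

lemma C_eq : C Q lam = N - (5 : ℝ) • (1 : Matrix (Fin 16) (Fin 16) ℝ) := by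
  ext i j
  have h := succ_ne i
  simp only [C, Q, lam, N, Matrix.sub_apply, Matrix.of_apply, Matrix.diagonal_apply,
    Matrix.smul_apply, Matrix.one_apply, smul_eq_mul]
  by_cases h1 : j = i + 1
  · rw [if_pos h1, if_pos h1, if_neg (by rw [h1]; exact h.symm), if_neg (by rw [h1]; exact h.symm)]
    norm_num
  · rw [if_neg h1, if_neg h1]
    by_cases h2 : j = i
    · rw [if_pos h2, if_pos h2, if_pos h2.symm, if_pos h2.symm]
      split_ifs <;> norm_num
    · rw [if_neg h2, if_neg h2, if_neg (Ne.symm h2), if_neg (Ne.symm h2)]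
      norm_num

lemma N_mulVec (v : Fin 16 → ℕ) : N *ᵥ (fun i => (v i : ℝ)) = fun i => ((st v i : ℕ) : ℝ) := by
  funext i
  have h := succ_ne i
  have e1 : (N *ᵥ (fun i => (v i : ℝ))) i = ∑ j, N i j * v j := rfl
  rw [e1]
  have e2 : ∀ j, N i j * v j = (if j = i + 1 then 4 * (v j : ℝ) else 0) +
      (if j = i then (if i.val < 8 then 0 else 1) * (v j : ℝ) else 0) := by
    intro j
    simp only [N, Matrix.of_apply]
    by_cases h1 : j = i + 1
    · rw [if_pos h1, if_pos h1, if_neg (by rw [h1]; exact h)]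
      ring
    · rw [if_neg h1, if_neg h1]
      by_cases h2 : j = i
      · rw [if_pos h2, if_pos h2]; ring
      · rw [if_neg h2, if_neg h2]; ring
  rw [Finset.sum_congr rfl fun j _ => e2 j, Finset.sum_add_distrib, Finset.sum_ite_eq',
    Finset.sum_ite_eq', if_pos (Finset.mem_univ _), if_pos (Finset.mem_univ _)]
  rw [st]
  push_cast
  split_ifs <;> simp

lemma N_pow (j : ℕ) : (N ^ j) *ᵥ 1 = fun i => ((a j i : ℕ) : ℝ) := by
  induction j with
  | zero =>
    rw [pow_zero, Matrix.one_mulVec]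
    funext i
    simp [a]
  | succ j ih =>
    rw [pow_succ', ← Matrix.mulVec_mulVec, ih, N_mulVec]
    rfl

lemma a_le (j : ℕ) (i : Fin 16) : a j i ≤ 5 ^ j := by
  induction j generalizing i with
  | zero => simp [a]
  | succ j ih =>
    rw [a_succ, st, pow_succ]
    have h1 := ih (i + 1)
    have h2 := ih i
    split_ifs <;> omega

lemma δ_le (j : ℕ) : |(δ (a j) : ℝ)| ≤ 16 * 5 ^ j := by
  rw [δ]
  push_cast
  refine le_trans (Finset.abs_sum_le_sum_abs _ _) ?_
  have h1 : ∀ i : Fin 16, |(if i.val < 8 then (1 : ℝ) else -1) * (a j i : ℝ)| ≤ 5 ^ j := by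
    intro i
    have h2 : (a j i : ℝ) ≤ 5 ^ j := by exact_mod_cast a_le j i
    have h3 : (0 : ℝ) ≤ a j i := Nat.cast_nonneg _
    split_ifs
    · rw [one_mul, abs_of_nonneg h3]; exact h2
    · rw [neg_one_mul, abs_neg, abs_of_nonneg h3]; exact h2
  calc ∑ i : Fin 16, |(if i.val < 8 then (1 : ℝ) else -1) * (a j i : ℝ)| ≤
        ∑ _i : Fin 16, (5 : ℝ) ^ j := Finset.sum_le_sum fun i _ => h1 i
    _ = 16 * 5 ^ j := by simp

/-- the signed weights -/
def w : Fin 16 → ℝ := fun i => if i.val < 8 then 1 else -1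

lemma w_dot (j : ℕ) : w ⬝ᵥ ((N ^ j) *ᵥ 1) = δ (a j) := by
  rw [N_pow, δ]
  push_cast
  rfl

/-- the terms of the series -/
noncomputable def g (j : ℕ) : ℝ := 3 ^ j / (j.factorial : ℝ) * δ (a j)

lemma hasSum_g : HasSum g (w ⬝ᵥ (NormedSpace.exp ((3 : ℝ) • N) *ᵥ 1)) := by
  open scoped Matrix.Norms.Operator in
  have h1 := NormedSpace.exp_series_hasSum_exp' (𝕂 := ℝ) ((3 : ℝ) • N)
  let L : Matrix (Fin 16) (Fin 16) ℝ →+ ℝ :=
    { toFun := fun M => w ⬝ᵥ (M *ᵥ 1)
      map_zero' := by simp
      map_add' := fun A B => by rw [Matrix.add_mulVec, dotProduct_add] }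
  have hL : Continuous L := by
    change Continuous fun M : Matrix (Fin 16) (Fin 16) ℝ => w ⬝ᵥ (M *ᵥ 1)
    fun_prop
  have h2 := h1.map L hL
  convert h2 using 1
  · funext j
    change g j = w ⬝ᵥ (((j.factorial : ℝ)⁻¹ • ((3 : ℝ) • N) ^ j) *ᵥ 1)
    rw [smul_pow, smul_smul, Matrix.smul_mulVec, dotProduct_smul, w_dot, g, smul_eq_mul]
    ring
  · rfl

lemma tail_bound (i : ℕ) : |g (i + 29)| ≤ 16 * (15 ^ 29 / (Nat.factorial 29 : ℝ)) * (1 / 2) ^ i := by
  rw [g, abs_mul, abs_of_nonneg (by positivity)]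
  have h1 := δ_le (i + 29)
  have h2 : (Nat.factorial 29 : ℝ) * 30 ^ i ≤ (Nat.factorial (i + 29) : ℝ) := by
    have h3 := Nat.factorial_mul_pow_le_factorial (m := 29) (n := i)
    rw [add_comm i 29]
    exact_mod_cast h3
  have h4 : (0 : ℝ) < (Nat.factorial 29 : ℝ) := by positivity
  calc (3 : ℝ) ^ (i + 29) / ((i + 29).factorial : ℝ) * |(δ (a (i + 29)) : ℝ)|
      ≤ (3 : ℝ) ^ (i + 29) / ((i + 29).factorial : ℝ) * (16 * 5 ^ (i + 29)) :=
        mul_le_mul_of_nonneg_left h1 (by positivity)
    _ ≤ (3 : ℝ) ^ (i + 29) / ((Nat.factorial 29 : ℝ) * 30 ^ i) * (16 * 5 ^ (i + 29)) := by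
        apply mul_le_mul_of_nonneg_right _ (by positivity)
        apply div_le_div_of_nonneg_left (by positivity) (by positivity) h2
    _ = 16 * (15 ^ 29 / (Nat.factorial 29 : ℝ)) * (1 / 2) ^ i := by
        have e1 : (15 : ℝ) = 3 * 5 := by norm_num
        have e2 : (30 : ℝ) = 3 * 5 * 2 := by norm_num
        rw [e1, e2, mul_pow, mul_pow, mul_pow, one_div, inv_pow, pow_add, pow_add]
        field_simp

lemma sum_g_pos : 0 < w ⬝ᵥ (NormedSpace.exp ((3 : ℝ) • N) *ᵥ 1) := by
  have hs := hasSum_g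
  have h1 := hs.summable.sum_add_tsum_nat_add 29
  rw [hs.tsum_eq] at h1
  have h2 : |∑' i, g (i + 29)| ≤ 32 * (15 ^ 29 / (Nat.factorial 29 : ℝ)) := by
    have h3 : HasSum (fun i : ℕ => 16 * (15 ^ 29 / (Nat.factorial 29 : ℝ)) * (1 / 2 : ℝ) ^ i)
        (16 * (15 ^ 29 / (Nat.factorial 29 : ℝ)) * 2) := hasSum_geometric_two.mul_left _
    have h4 := tsum_of_norm_bounded h3 (f := fun i => g (i + 29)) tail_bound
    rw [Real.norm_eq_abs] at h4
    linarith
  have h5 : 32 * (15 ^ 29 / (Nat.factorial 29 : ℝ)) < ∑ i ∈ Finset.range 29, g i := by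
    simp only [Finset.sum_range_succ, Finset.sum_range_zero, g, δ_0, δ_1, δ_2, δ_3, δ_4, δ_5,
      δ_6, δ_7, δ_8, δ_9, δ_10, δ_11, δ_12, δ_13, δ_14, δ_15, δ_16, δ_17, δ_18, δ_19, δ_20,
      δ_21, δ_22, δ_23, δ_24, δ_25, δ_26, δ_27, δ_28]
    norm_num [Nat.factorial]
  have h6 := neg_abs_le (∑' i, g (i + 29))
  rw [← h1]
  linarith

lemma irr (i j : Fin 16) : Relation.ReflTransGen (fun a b => 0 < Q a b) i j := by
  have hstep : ∀ i : Fin 16, 0 < Q i (i + 1) := by
    intro i
    rw [Q, Matrix.of_apply, if_pos rfl]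
    norm_num
  have hd : ∀ i j : Fin 16, (j - i).val ≠ 0 → (j - (i + 1)).val + 1 = (j - i).val := by decide
  have hz : ∀ i j : Fin 16, (j - i).val = 0 → j = i := by decide
  have h : ∀ (n : ℕ) (i j : Fin 16), (j - i).val = n →
      Relation.ReflTransGen (fun a b => 0 < Q a b) i j := by
    intro n
    induction n with
    | zero =>
      intro i j hij
      rw [hz i j hij]
    | succ n ih =>
      intro i j hij
      have h1 := hd i j (by omega)
      exact Relation.ReflTransGen.head (hstep i) (ih (i + 1) j (by omega))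
  exact h _ i j rfl

/-- The first event time of a Markov-modulated Poisson process in the time-stationary version
need not stochastically dominate that in the event-stationary version. -/
theorem result : ∃ (p : ℕ) (Q : Matrix (Fin p) (Fin p) ℝ) (lam π : Fin p → ℝ),
    IsMMPP Q lam ∧ IsStationary Q π ∧
      ∃ t : ℝ, 0 ≤ t ∧ survival Q lam π t < survival Q lam (palm lam π) t := by
  refine ⟨16, Q, lam, pi', ⟨⟨?_, ?_, irr⟩, ?_, ?_⟩, ⟨?_, ?_, ?_⟩, 3, by norm_num, ?_⟩
  · intro i j hij
    rw [Q, Matrix.of_apply]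
    split_ifs with h1 h2
    · norm_num
    · exact absurd h2.symm hij
    · exact le_refl _
  · intro i
    have h := succ_ne i
    have e2 : ∀ j, Q i j = (if j = i + 1 then 4 else 0) + (if j = i then (-4 : ℝ) else 0) := by
      intro j
      simp only [Q, Matrix.of_apply]
      by_cases h1 : j = i + 1
      · rw [if_pos h1, if_pos h1, if_neg (by rw [h1]; exact h)]
        ring
      · rw [if_neg h1, if_neg h1, zero_add]
    rw [Finset.sum_congr rfl fun j _ => e2 j, Finset.sum_add_distrib, Finset.sum_ite_eq',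
      Finset.sum_ite_eq', if_pos (Finset.mem_univ _), if_pos (Finset.mem_univ _)]
    norm_num
  · intro i
    rw [lam]
    split_ifs <;> norm_num
  · exact ⟨0, by rw [lam, if_pos (by decide)]; norm_num⟩
  · intro i
    rw [pi']; norm_num
  · simp [pi']
  · funext j
    have e1 : (pi' ᵥ* Q) j = ∑ i, pi' i * Q i j := rfl
    rw [e1, Pi.zero_apply]
    have h := succ_ne
    have e2 : ∀ i, pi' i * Q i j =
        (if i = j - 1 then 1 / 4 else 0) + (if i = j then (-1 / 4 : ℝ) else 0) := by
      intro i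
      have h3 := eq_sub_iff i j
      simp only [Q, Matrix.of_apply, pi', h3]
      by_cases h1 : j = i + 1
      · have h2 : ¬ i = j := by rw [h1]; exact (h i).symm
        simp only [if_pos h1, if_neg h2]; norm_num
      · by_cases h2 : j = i
        · simp only [if_neg h1, if_pos h2, if_pos h2.symm]; norm_num
        · simp only [if_neg h1, if_neg h2, if_neg (Ne.symm h2)]; norm_num
    rw [Finset.sum_congr rfl fun i _ => e2 i, Finset.sum_add_distrib, Finset.sum_ite_eq',
      Finset.sum_ite_eq', if_pos (Finset.mem_univ _), if_pos (Finset.mem_univ _)]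
    norm_num
  · -- the main inequality
    have e0 : ∑ j, pi' j * lam j = 1 / 2 := by
      simp only [pi', lam]
      rw [← Finset.mul_sum]
      have : ∑ i : Fin 16, (if i.val < 8 then (1 : ℝ) else 0) = 8 := by
        rw [Finset.sum_ite]
        simp only [Finset.sum_const, Finset.sum_const_zero, add_zero, nsmul_eq_mul, mul_one]
        have : (Finset.univ.filter fun i : Fin 16 => i.val < 8).card = 8 := by decide
        rw [this]; norm_num
      rw [this]; norm_num
    have e1 : palm lam pi' - pi' = (1 / 16 : ℝ) • w := by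
      funext i
      rw [Pi.sub_apply, palm, e0, Pi.smul_apply, w, pi', lam, smul_eq_mul]
      split_ifs <;> norm_num
    have e2 : (3 : ℝ) • C Q lam = (3 : ℝ) • N + (-15 : ℝ) • (1 : Matrix (Fin 16) (Fin 16) ℝ) := by
      rw [C_eq, smul_sub, smul_smul]
      norm_num [sub_eq_add_neg]
    have e3 : NormedSpace.exp ((3 : ℝ) • C Q lam) =
        Real.exp (-15) • NormedSpace.exp ((3 : ℝ) • N) := by
      rw [e2, Matrix.exp_add_of_commute _ _ ((Commute.one_right _).smul_right _)]
      have e4 : NormedSpace.exp ((-15 : ℝ) • (1 : Matrix (Fin 16) (Fin 16) ℝ)) =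
          Real.exp (-15) • (1 : Matrix (Fin 16) (Fin 16) ℝ) := by
        have e5 : (-15 : ℝ) • (1 : Matrix (Fin 16) (Fin 16) ℝ) =
            Matrix.diagonal fun _ => (-15 : ℝ) := by
          rw [Matrix.smul_one_eq_diagonal]
        rw [e5, Matrix.exp_diagonal, Matrix.smul_one_eq_diagonal]
        congr 1
        funext i
        rw [Pi.coe_exp, Real.exp_eq_exp_ℝ]
      rw [e4, mul_smul_comm, mul_one]
    have e6 : survival Q lam (palm lam pi') 3 - survival Q lam pi' 3 =
        1 / 16 * (Real.exp (-15) * (w ⬝ᵥ (NormedSpace.exp ((3 : ℝ) • N) *ᵥ 1))) := by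
      rw [survival, survival, ← sub_dotProduct, e1, e3, smul_dotProduct, Matrix.smul_mulVec,
        dotProduct_smul, smul_eq_mul, smul_eq_mul]
    have e7 := sum_g_pos
    have e8 : 0 < survival Q lam (palm lam pi') 3 - survival Q lam pi' 3 := by
      rw [e6]
      have := Real.exp_pos (-15)
      positivity
    linarith

end Pool.Agent.Results.MP_af8c33_pr.NotStochasticallyOrdered
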