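import Pool.Agent.V1164.MM.Defs

/-!
# Every Markov-modulated Poisson process has squared coefficient of variation at least one
-/

set_option autoImplicit false

namespace Pool.Agent.Results.MP_af8c33_pr.VariabilityAtLeastOne

open Matrix Pool.Agent.V1164.MM

variable {p : ℕ} {Q : Matrix (Fin p) (Fin p) ℝ} {lam π : Fin p → ℝ}

lemma C_inj (h : IsMMPP Q lam) (x : Fin p → ℝ) (hx : C Q lam *ᵥ x = 0) : x = 0 := by
  by_contra hne
  obtain ⟨i0, hi0⟩ : ∃ i, x i ≠ 0 := by
    by_contra h1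
    push Not at h1
    exact hne (funext h1)
  haveI : Nonempty (Fin p) := ⟨i0⟩
  obtain ⟨m, hm⟩ := Finite.exists_max (fun i => |x i|)
  have hMpos : 0 < |x m| := lt_of_lt_of_le (abs_pos.mpr hi0) (hm i0)
  have key : ∀ i, |x i| = |x m| → lam i = 0 ∧ ∀ j, 0 < Q i j → |x j| = |x m| := by
    intro i hi
    have h1 : ∑ j, Q i j * x j = lam i * x i := by
      have h2 := congrFun hx i
      rw [C, Matrix.sub_mulVec, Pi.sub_apply, Matrix.mulVec_diagonal, Pi.zero_apply] at h2
      have h3 : (Q *ᵥ x) i = ∑ j, Q i j * x j := rfl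
      rw [h3] at h2
      linarith
    have hQii : Q i i = -∑ j ∈ Finset.univ.erase i, Q i j := by
      have h2 := h.generator.row_sum i
      rw [← Finset.add_sum_erase _ _ (Finset.mem_univ i)] at h2
      linarith
    have h4 : (lam i - Q i i) * x i = ∑ j ∈ Finset.univ.erase i, Q i j * x j := by
      rw [← Finset.add_sum_erase _ _ (Finset.mem_univ i)] at h1
      linarith
    have h5 : (lam i - Q i i) * |x i| ≤ ∑ j ∈ Finset.univ.erase i, Q i j * |x j| := by
      have h6 : 0 ≤ lam i - Q i i := by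
        have := h.rate_nonneg i
        have h7 : 0 ≤ ∑ j ∈ Finset.univ.erase i, Q i j :=
          Finset.sum_nonneg fun j hj => h.generator.off_diag_nonneg i j
            (Finset.ne_of_mem_erase hj).symm
        linarith
      calc (lam i - Q i i) * |x i| = |(lam i - Q i i) * x i| := by
            rw [abs_mul, abs_of_nonneg h6]
        _ = |∑ j ∈ Finset.univ.erase i, Q i j * x j| := by rw [h4]
        _ ≤ ∑ j ∈ Finset.univ.erase i, |Q i j * x j| := Finset.abs_sum_le_sum_abs _ _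
        _ = ∑ j ∈ Finset.univ.erase i, Q i j * |x j| := by
            refine Finset.sum_congr rfl fun j hj => ?_
            rw [abs_mul, abs_of_nonneg (h.generator.off_diag_nonneg i j
              (Finset.ne_of_mem_erase hj).symm)]
    rw [hi] at h5
    have h8 : lam i * |x m| + ∑ j ∈ Finset.univ.erase i, Q i j * (|x m| - |x j|) ≤ 0 := by
      have e1 : ∑ j ∈ Finset.univ.erase i, Q i j * (|x m| - |x j|) =
          (∑ j ∈ Finset.univ.erase i, Q i j) * |x m| -
            ∑ j ∈ Finset.univ.erase i, Q i j * |x j| := by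
        rw [Finset.sum_mul, ← Finset.sum_sub_distrib]
        exact Finset.sum_congr rfl fun j _ => by ring
      rw [e1]
      rw [hQii] at h5
      linarith
    have h9 : ∀ j ∈ Finset.univ.erase i, 0 ≤ Q i j * (|x m| - |x j|) := fun j hj =>
      mul_nonneg (h.generator.off_diag_nonneg i j (Finset.ne_of_mem_erase hj).symm)
        (sub_nonneg.mpr (hm j))
    have h10 := Finset.sum_nonneg h9
    have h11 : 0 ≤ lam i * |x m| := mul_nonneg (h.rate_nonneg i) hMpos.le
    have h12 : lam i * |x m| = 0 := by linarith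
    have h13 : ∑ j ∈ Finset.univ.erase i, Q i j * (|x m| - |x j|) = 0 := by linarith
    refine ⟨(mul_eq_zero.mp h12).resolve_right hMpos.ne', ?_⟩
    intro j hj
    by_cases hij : j = i
    · rw [hij]; exact hi
    · have h14 := (Finset.sum_eq_zero_iff_of_nonneg h9).mp h13 j
        (Finset.mem_erase.mpr ⟨hij, Finset.mem_univ j⟩)
      rcases mul_eq_zero.mp h14 with h15 | h15
      · exact absurd h15 hj.ne'
      · linarith
  have all : ∀ j, |x j| = |x m| := by
    intro j
    have hpath := h.generator.irreducible m j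
    induction hpath with
    | refl => rfl
    | tail _ hbc ih => exact (key _ ih).2 _ hbc
  obtain ⟨k, hk⟩ := h.rate_ne_zero
  exact hk (key k (all k)).1

lemma energy (h : IsMMPP Q lam) (hπ : IsStationary Q π) (f : Fin p → ℝ) :
    ∑ i, π i * f i * (Q *ᵥ f) i ≤ 0 := by
  have e1 : ∀ i, π i * f i * (Q *ᵥ f) i = ∑ j, π i * Q i j * (f i * f j) := by
    intro i
    have h3 : (Q *ᵥ f) i = ∑ j, Q i j * f j := rfl
    rw [h3, Finset.mul_sum]
    exact Finset.sum_congr rfl fun j _ => by ring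
  have e2 : ∀ i j, π i * Q i j * (f i * f j) ≤ π i * Q i j * ((f i ^ 2 + f j ^ 2) / 2) := by
    intro i j
    by_cases hij : i = j
    · rw [hij]
      apply le_of_eq
      ring
    · apply mul_le_mul_of_nonneg_left _
        (mul_nonneg (hπ.nonneg i) (h.generator.off_diag_nonneg i j hij))
      nlinarith [sq_nonneg (f i - f j)]
  have e3 : ∑ i, ∑ j, π i * Q i j * ((f i ^ 2 + f j ^ 2) / 2) = 0 := by
    have e4 : ∑ i, ∑ j, π i * Q i j * ((f i ^ 2 + f j ^ 2) / 2) =
        (∑ i, π i * f i ^ 2 * ∑ j, Q i j) / 2 + (∑ j, (∑ i, π i * Q i j) * f j ^ 2) / 2 := by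
      have e5 : ∑ j, (∑ i, π i * Q i j) * f j ^ 2 = ∑ i, ∑ j, π i * Q i j * f j ^ 2 := by
        rw [Finset.sum_comm]
        exact Finset.sum_congr rfl fun j _ => by rw [Finset.sum_mul]
      rw [e5, ← add_div, ← Finset.sum_add_distrib, Finset.sum_div]
      refine Finset.sum_congr rfl fun i _ => ?_
      rw [Finset.mul_sum, ← Finset.sum_add_distrib, Finset.sum_div]
      exact Finset.sum_congr rfl fun j _ => by ring
    rw [e4]
    have e6 : ∀ i, ∑ j, Q i j = 0 := h.generator.row_sum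
    have e7 : ∀ j, ∑ i, π i * Q i j = 0 := fun j => congrFun hπ.balance j
    simp [e6, e7]
  rw [Finset.sum_congr rfl fun i _ => e1 i]
  refine le_trans (Finset.sum_le_sum fun i _ => Finset.sum_le_sum fun j _ => e2 i j) e3.le

/-- For every Markov-modulated Poisson process the matrix `C` is nonsingular and
`(π C 1) (π C⁻¹ 1) ≥ 1`, that is `c² = 2 (π C 1) (π C⁻¹ 1) - 1 ≥ 1`. -/
theorem result (p : ℕ) (Q : Matrix (Fin p) (Fin p) ℝ) (lam π : Fin p → ℝ)
    (h : IsMMPP Q lam) (hπ : IsStationary Q π) :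
    IsUnit (C Q lam) ∧
      1 ≤ (π ⬝ᵥ (C Q lam *ᵥ 1)) * (π ⬝ᵥ ((C Q lam)⁻¹ *ᵥ 1)) := by
  have hunit : IsUnit (C Q lam) := by
    rw [← Matrix.mulVec_injective_iff_isUnit]
    intro x y hxy
    have h1 : C Q lam *ᵥ (x - y) = 0 := by
      rw [Matrix.mulVec_sub]
      exact sub_eq_zero.mpr hxy
    exact sub_eq_zero.mp (C_inj h _ h1)
  refine ⟨hunit, ?_⟩
  set f : Fin p → ℝ := -((C Q lam)⁻¹ *ᵥ 1) with hf
  have hdet : IsUnit (C Q lam).det := (Matrix.isUnit_iff_isUnit_det _).mp hunit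
  have hCf : C Q lam *ᵥ f = -1 := by
    rw [hf, Matrix.mulVec_neg, Matrix.mulVec_mulVec, Matrix.mul_nonsing_inv _ hdet,
      Matrix.one_mulVec]
  have hCfi : ∀ i, lam i * f i - (Q *ᵥ f) i = 1 := by
    intro i
    have h2 := congrFun hCf i
    rw [C, Matrix.sub_mulVec, Pi.sub_apply, Matrix.mulVec_diagonal, Pi.neg_apply,
      Pi.one_apply] at h2
    linarith
  have hpQf : ∑ i, π i * (Q *ᵥ f) i = 0 := by
    have h3 : π ⬝ᵥ (Q *ᵥ f) = 0 := by
      rw [Matrix.dotProduct_mulVec, hπ.balance, zero_dotProduct]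
    exact h3
  -- π D f = 1
  have h1 : ∑ i, π i * lam i * f i = 1 := by
    have h4 : ∑ i, π i * lam i * f i = ∑ i, (π i * 1 + π i * (Q *ᵥ f) i) := by
      refine Finset.sum_congr rfl fun i _ => ?_
      rw [← hCfi i]; ring
    rw [h4, Finset.sum_add_distrib, hpQf]
    simp [hπ.sum_one]
  -- π f ≥ π (D f) f
  have h2 : ∑ i, π i * lam i * f i ^ 2 ≤ ∑ i, π i * f i := by
    have h5 := energy h hπ f
    have h6 : ∑ i, π i * f i = ∑ i, (π i * lam i * f i ^ 2 - π i * f i * (Q *ᵥ f) i) := by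
      refine Finset.sum_congr rfl fun i _ => ?_
      have := hCfi i
      linear_combination (-π i * f i) * this
    rw [h6, Finset.sum_sub_distrib]
    linarith
  have h3 : (∑ i, π i * lam i * f i) ^ 2 ≤
      (∑ i, π i * lam i) * ∑ i, π i * lam i * f i ^ 2 := by
    refine Finset.sum_sq_le_sum_mul_sum_of_sq_eq_mul _
      (fun i _ => mul_nonneg (hπ.nonneg i) (h.rate_nonneg i))
      (fun i _ => mul_nonneg (mul_nonneg (hπ.nonneg i) (h.rate_nonneg i)) (sq_nonneg _))
      (fun i _ => by ring)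
  have hμ : 0 ≤ ∑ i, π i * lam i :=
    Finset.sum_nonneg fun i _ => mul_nonneg (hπ.nonneg i) (h.rate_nonneg i)
  have e1 : π ⬝ᵥ (C Q lam *ᵥ 1) = -∑ i, π i * lam i := by
    rw [C, Matrix.sub_mulVec, dotProduct_sub, Matrix.dotProduct_mulVec, hπ.balance,
      zero_dotProduct, zero_sub]
    congr 1
    refine Finset.sum_congr rfl fun i _ => ?_
    rw [Matrix.mulVec_diagonal, Pi.one_apply, mul_one]
  have e2 : π ⬝ᵥ ((C Q lam)⁻¹ *ᵥ 1) = -∑ i, π i * f i := by
    have h7 : ∑ i, π i * f i = π ⬝ᵥ f := rfl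
    rw [h7, hf, dotProduct_neg, neg_neg]
  rw [e1, e2, neg_mul_neg]
  rw [h1] at h3
  calc (1 : ℝ) = 1 ^ 2 := by norm_num
    _ ≤ (∑ i, π i * lam i) * ∑ i, π i * lam i * f i ^ 2 := h3
    _ ≤ (∑ i, π i * lam i) * ∑ i, π i * f i := mul_le_mul_of_nonneg_left h2 hμ

end Pool.Agent.Results.MP_af8c33_pr.VariabilityAtLeastOne
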